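import Mathlib

set_option autoImplicit false

/-! Perfect images of weakly `θ`-refinable spaces: the covering argument inside compact sets. -/

namespace Pool.Agent.U452.WT

open Set Topology

section

variable {X ι : Type*} (A : ℕ → Set ι) (G : ι → Set X)

/-- the points in at least one member of the family `n` -/
def O1 (n : ℕ) : Set X := {x | ∃ i ∈ A n, x ∈ G i}

/-- the points in at least two members of the family `n` -/
def O2 (n : ℕ) : Set X := {x | ∃ i ∈ A n, ∃ j ∈ A n, i ≠ j ∧ x ∈ G i ∧ x ∈ G j}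

open Classical in
/-- the number of the members of the family `n` which contain `x`, cut off at `2` -/
noncomputable def h (n : ℕ) (x : X) : ℕ :=
  (if x ∈ O1 A G n then 1 else 0) + (if x ∈ O2 A G n then 1 else 0)

/-- the first digits, read as a number in base `3` -/
noncomputable def H : ℕ → X → ℕ
  | 0, _ => 0
  | n + 1, x => 3 * H n x + h A G n x

theorem h_lt (n : ℕ) (x : X) : h A G n x < 3 := by
  unfold h
  split_ifs <;> omega

theorem O2_sub (n : ℕ) : O2 A G n ⊆ O1 A G n := by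
  rintro x ⟨i, hi, -, -, -, hx, -⟩
  exact ⟨i, hi, hx⟩

theorem h_eq_one {n : ℕ} {x : X} : h A G n x = 1 ↔ x ∈ O1 A G n ∧ x ∉ O2 A G n := by
  have := O2_sub A G n
  unfold h
  split_ifs with h1 h2 h2
  · simp [h1, h2]
  · simp [h1, h2]
  · exact absurd (this h2) h1
  · simp [h1]

theorem h_one_unique {n : ℕ} {x : X} (hx : h A G n x = 1) {i j : ι} (hi : i ∈ A n) (hj : j ∈ A n)
    (xi : x ∈ G i) (xj : x ∈ G j) : i = j := by
  by_contra hij
  exact ((h_eq_one A G).1 hx).2 ⟨i, hi, j, hj, hij, xi, xj⟩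

/-- monotonicity of the lexicographic order -/
theorem H_mono {x y : X} {j k : ℕ} (hjk : j ≤ k) (hlt : H A G j x < H A G j y) :
    H A G k x < H A G k y := by
  induction k, hjk using Nat.le_induction with
  | base => exact hlt
  | succ k _ ih =>
    have := h_lt A G k x
    simp only [H]
    omega

theorem H_digit {x y : X} {n : ℕ} (he : H A G (n + 1) x = H A G (n + 1) y) :
    H A G n x = H A G n y ∧ h A G n x = h A G n y := by
  have := h_lt A G n x
  have := h_lt A G n y
  simp only [H] at he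
  omega

theorem H_digits {x y : X} {n : ℕ} (he : H A G n x = H A G n y) :
    ∀ i < n, h A G i x = h A G i y := by
  induction n with
  | zero => intro i hi; omega
  | succ n ih =>
    obtain ⟨h1, h2⟩ := H_digit A G he
    intro i hi
    rcases Nat.lt_succ_iff_lt_or_eq.1 hi with h3 | h3
    · exact ih h1 i h3
    · rw [h3]; exact h2

/-- the comparison lemma -/
theorem cmp {x y : X} {m n : ℕ} (hx : ∀ i < m, h A G i x ≠ 1) (hy : h A G n y = 1)
    (hlt : H A G (m + 1) x < H A G (m + 1) y) : H A G (n + 1) x < H A G (n + 1) y := by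
  rcases le_or_gt m n with h1 | h1
  · exact H_mono A G (by omega) hlt
  · by_contra hcon
    rcases Nat.lt_or_eq_of_le (not_lt.1 hcon) with h2 | h2
    · have := H_mono A G (show n + 1 ≤ m + 1 by omega) h2
      omega
    · have := (H_digit A G h2).2
      exact hx n h1 (this ▸ hy)

/-- the region of the step `t` -/
def Om (t : ℕ × ℕ × ℕ) : Set X := {x | t.2.1 ≤ H A G (t.1 + 1) x}

/-- the admissible choices for the type `σ` -/
def Tup (σ : List (ℕ × ℕ × ℕ)) (T : List (Finset ι)) : Prop :=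
  List.Forall₂ (fun (t : ℕ × ℕ × ℕ) (S : Finset ι) => (↑S : Set ι) ⊆ A t.1 ∧ S.card = t.2.2) σ T

/-- the set covered by a choice -/
def GG : List (ℕ × ℕ × ℕ) → List (Finset ι) → Set X
  | t :: σ, S :: T => (⋃ i ∈ S, G i ∩ Om A G t) ∪ GG σ T
  | _, _ => ∅

/-- there is a type with exactly one choice covering `R` -/
def Good (R : Set X) : Prop :=
  ∃ σ, (∃! T, Tup A σ T ∧ R ⊆ GG A G σ T) ∧
    (∀ T, Tup A σ T → R ⊆ GG A G σ T → R.Nonempty →
      ∃ S T', T = S :: T' ∧ S.Nonempty ∧ ∀ i ∈ S, (G i ∩ R).Nonempty) ∧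
    ∀ t ∈ σ, ∀ (x : X) (n : ℕ), (∀ i < n, h A G i x ≠ 1) →
      (∀ x' ∈ R, H A G (n + 1) x < H A G (n + 1) x') → H A G (t.1 + 1) x < t.2.1

theorem good_empty : Good A G (∅ : Set X) := by
  refine ⟨[], ⟨[], ⟨List.Forall₂.nil, empty_subset _⟩, ?_⟩, ?_, ?_⟩
  · rintro T ⟨hT, -⟩
    cases hT
    rfl
  · intro T _ _ hne
    exact absurd hne not_nonempty_empty
  · intro t ht
    simp at ht

theorem GG_sub {σ : List (ℕ × ℕ × ℕ)} {T : List (Finset ι)} {x : X} (hx : x ∈ GG A G σ T) :
    ∃ t ∈ σ, x ∈ Om A G t := by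
  induction σ generalizing T with
  | nil => simp [GG] at hx
  | cons t σ ih =>
    cases T with
    | nil => simp [GG] at hx
    | cons S T =>
      rcases hx with hx | hx
      · simp only [mem_iUnion] at hx
        obtain ⟨i, -, -, h2⟩ := hx
        exact ⟨t, by simp, h2⟩
      · obtain ⟨t', ht', h2⟩ := ih hx
        exact ⟨t', by simp [ht'], h2⟩

end

section

variable {X ι : Type*} [TopologicalSpace X] (A : ℕ → Set ι) (G : ι → Set X)

theorem open_O1 (hG : ∀ n, ∀ i ∈ A n, IsOpen (G i)) (n : ℕ) : IsOpen (O1 A G n) := by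
  have : O1 A G n = ⋃ i ∈ A n, G i := by
    ext x; simp [O1]
  rw [this]
  exact isOpen_biUnion fun i hi => hG n i hi

theorem open_O2 (hG : ∀ n, ∀ i ∈ A n, IsOpen (G i)) (n : ℕ) : IsOpen (O2 A G n) := by
  have : O2 A G n = ⋃ i ∈ A n, ⋃ j ∈ A n, ⋃ _ : i ≠ j, G i ∩ G j := by
    ext x
    simp only [O2, mem_ofPred_eq, mem_iUnion, mem_inter_iff, exists_prop]
  rw [this]
  exact isOpen_biUnion fun i hi => isOpen_biUnion fun j hj => isOpen_iUnion fun _ =>
    (hG n i hi).inter (hG n j hj)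

theorem open_h (hG : ∀ n, ∀ i ∈ A n, IsOpen (G i)) (n c : ℕ) : IsOpen {x | c ≤ h A G n x} := by
  rcases c with _ | _ | _ | c
  · simp
  · have : {x | 0 + 1 ≤ h A G n x} = O1 A G n := by
      ext x
      simp only [mem_ofPred_eq, h]
      have := @O2_sub _ _ A G n x
      split_ifs with h1 h2 h2
      · simp [h1]
      · simp [h1]
      · exact absurd (this h2) h1
      · simp [h1]
    rw [this]
    exact open_O1 A G hG n
  · have : {x | 0 + 1 + 1 ≤ h A G n x} = O2 A G n := by
      ext x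
      simp only [mem_ofPred_eq, h]
      have := @O2_sub _ _ A G n x
      split_ifs with h1 h2 h2
      · simp [h2]
      · simp [h2]
      · exact absurd (this h2) h1
      · simp [h2]
    rw [this]
    exact open_O2 A G hG n
  · have : {x | c + 1 + 1 + 1 ≤ h A G n x} = ∅ := by
      ext x
      have := h_lt A G n x
      simp only [mem_ofPred_eq, mem_empty_iff_false, iff_false]
      omega
    rw [this]
    exact isOpen_empty

theorem open_H (hG : ∀ n, ∀ i ∈ A n, IsOpen (G i)) (m c : ℕ) : IsOpen {x | c ≤ H A G m x} := by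
  induction m generalizing c with
  | zero =>
    rcases c with _ | c
    · simp
    · have : {x : X | c + 1 ≤ H A G 0 x} = ∅ := by
        ext x; simp [H]
      rw [this]
      exact isOpen_empty
  | succ m ih =>
    have : {x : X | c ≤ H A G (m + 1) x} =
        {x | c / 3 + 1 ≤ H A G m x} ∪ ({x | c / 3 ≤ H A G m x} ∩ {x | c % 3 ≤ h A G m x}) := by
      ext x
      have := h_lt A G m x
      simp only [mem_ofPred_eq, H, mem_union, mem_inter_iff]
      omega
    rw [this]
    exact (ih _).union ((ih _).inter (open_h A G hG m _))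

theorem open_GG (hG : ∀ n, ∀ i ∈ A n, IsOpen (G i)) {σ : List (ℕ × ℕ × ℕ)}
    {T : List (Finset ι)} (hT : Tup A σ T) : IsOpen (GG A G σ T) := by
  induction hT with
  | nil => exact isOpen_empty
  | cons h1 _ ih =>
    refine IsOpen.union (isOpen_biUnion fun i hi => ?_) ih
    exact (hG _ i (h1.1 hi)).inter (open_H A G hG _ _)

/-- a point of minimal history -/
theorem exists_min (hG : ∀ n, ∀ i ∈ A n, IsOpen (G i)) {R : Set X} (hR : IsCompact R)
    (hne : R.Nonempty) : ∃ x ∈ R, ∀ j, ∀ x' ∈ R, H A G j x ≤ H A G j x' := by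
  have hm : ∀ j, ∃ x ∈ R, ∀ x' ∈ R, H A G j x ≤ H A G j x' := by
    intro j
    obtain ⟨x, hx, hmin⟩ := (measure (H A G j)).wf.has_min R hne
    exact ⟨x, hx, fun x' hx' => not_lt.1 (hmin x' hx')⟩
  choose p hp hpm using hm
  have hstep : ∀ j, ∀ x ∈ R, H A G (j + 1) x ≤ H A G (j + 1) (p (j + 1)) →
      H A G j x ≤ H A G j (p j) := by
    intro j x _ hle
    have h1 := hpm (j + 1) (p j) (hp j)
    have h2 := h_lt A G j (p j)
    simp only [H] at hle h1
    omega
  have hdown : ∀ k j, j ≤ k → ∀ x ∈ R, H A G k x ≤ H A G k (p k) → H A G j x ≤ H A G j (p j) := by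
    intro k j hjk
    induction k, hjk using Nat.le_induction with
    | base => intro x _ h; exact h
    | succ k _ ih => intro x hx h; exact ih x hx (hstep k x hx h)
  have hcl : ∀ j, IsClosed {x | H A G j x ≤ H A G j (p j)} := by
    intro j
    rw [← isOpen_compl_iff]
    have : {x | H A G j x ≤ H A G j (p j)}ᶜ = {x | H A G j (p j) + 1 ≤ H A G j x} := by
      ext x
      simp only [mem_compl_iff, mem_ofPred_eq, not_le]
      omega
    rw [this]
    exact open_H A G hG _ _
  obtain ⟨x, hx, hx2⟩ := hR.inter_iInter_nonempty _ hcl (by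
    intro u
    refine ⟨p (u.sup id), hp _, ?_⟩
    simp only [mem_iInter, mem_ofPred_eq]
    intro j hj
    exact hdown _ j (Finset.le_sup (f := id) hj) _ (hp _) le_rfl)
  simp only [mem_iInter, mem_ofPred_eq] at hx2
  exact ⟨x, hx, fun j x' hx' => (hx2 j).trans (hpm j x' hx')⟩

/-- one step -/
theorem step (hG : ∀ n, ∀ i ∈ A n, IsOpen (G i)) (hex : ∀ x, ∃ n, h A G n x = 1) {R : Set X}
    (hR : IsCompact R) (hne : R.Nonempty) :
    ∃ O : Set X, IsOpen O ∧ (R ∩ O).Nonempty ∧ (Good A G (R \ O) → Good A G R) := by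
  classical
  obtain ⟨x₀, hx₀, hmin⟩ := exists_min A G hG hR hne
  set n := Nat.find (hex x₀) with hn
  have hn1 : h A G n x₀ = 1 := Nat.find_spec (hex x₀)
  have hn2 : ∀ i < n, h A G i x₀ ≠ 1 := fun i hi => Nat.find_min (hex x₀) hi
  set c := H A G (n + 1) x₀ with hc
  have hcmin : ∀ x ∈ R, c ≤ H A G (n + 1) x := fun x hx => hmin _ x hx
  -- the set `K_w`
  set Kw : Set X := {x | x ∈ R ∧ H A G (n + 1) x = c} with hKw
  have hKw1 : ∀ x ∈ Kw, h A G n x = 1 := by
    intro x hx
    rw [← hn1]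
    exact (H_digit A G hx.2).2
  have hKw2 : ∀ x ∈ Kw, ∀ i < n, h A G i x ≠ 1 := by
    intro x hx i hi
    rw [H_digits A G (H_digit A G hx.2).1 i hi]
    exact hn2 i hi
  have hidx : ∀ x : Kw, ∃ i ∈ A n, (x : X) ∈ G i := by
    intro x
    exact ((h_eq_one A G).1 (hKw1 x x.2)).1
  choose q hqA hqG using hidx
  have hKc : IsCompact Kw := by
    have h1 : Kw = R ∩ {x | c + 1 ≤ H A G (n + 1) x}ᶜ := by
      ext x
      simp only [hKw, mem_ofPred_eq, mem_inter_iff, mem_compl_iff]
      constructor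
      · rintro ⟨h1, h2⟩; exact ⟨h1, by omega⟩
      · rintro ⟨h1, h2⟩; exact ⟨h1, le_antisymm (by omega) (hcmin x h1)⟩
    rw [h1]
    exact hR.inter_right (open_H A G hG _ _).isClosed_compl
  have hfin : (range q).Finite := by
    obtain ⟨u, hu⟩ := hKc.elim_finite_subcover (fun i : range q => G i.1)
      (fun i => by
        obtain ⟨x, hx⟩ := i.2
        rw [← hx]
        exact hG n _ (hqA x))
      (fun x hx => mem_iUnion.2 ⟨⟨q ⟨x, hx⟩, mem_range_self _⟩, hqG ⟨x, hx⟩⟩)
    refine (u.image (fun i => i.1)).finite_toSet.subset ?_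
    rintro _ ⟨x, rfl⟩
    have := hu x.2
    simp only [mem_iUnion] at this
    obtain ⟨i, hi, hxi⟩ := this
    have hi2 : i.1 ∈ A n := by
      obtain ⟨y, hy⟩ := i.2
      rw [← hy]; exact hqA y
    have : q x = i.1 := h_one_unique A G (hKw1 x x.2) (hqA x) hi2 (hqG x) hxi
    rw [this]
    exact Finset.mem_coe.2 (Finset.mem_image.2 ⟨i, hi, rfl⟩)
  set S : Finset ι := hfin.toFinset with hS
  have hSA : (↑S : Set ι) ⊆ A n := by
    intro i hi
    rw [hS, Finite.coe_toFinset] at hi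
    obtain ⟨x, rfl⟩ := hi
    exact hqA x
  have hSG : ∀ i ∈ S, (G i ∩ R).Nonempty := by
    intro i hi
    rw [hS, Finite.mem_toFinset] at hi
    obtain ⟨x, rfl⟩ := hi
    exact ⟨x, hqG x, x.2.1⟩
  have hx₀K : x₀ ∈ Kw := ⟨hx₀, rfl⟩
  have hSne : S.Nonempty := ⟨q ⟨x₀, hx₀K⟩, by rw [hS, Finite.mem_toFinset]; exact mem_range_self _⟩
  have hKwS : Kw ⊆ ⋃ i ∈ S, G i := by
    intro x hx
    refine mem_biUnion (x := q ⟨x, hx⟩) ?_ (hqG ⟨x, hx⟩)
    rw [hS]
    simp
  refine ⟨⋃ i ∈ S, G i, isOpen_biUnion fun i hi => hG n i (hSA hi),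
    ⟨x₀, hx₀, hKwS hx₀K⟩, ?_⟩
  set R' := R \ ⋃ i ∈ S, G i with hR'
  have hR'lt : ∀ x' ∈ R', c < H A G (n + 1) x' := by
    intro x' hx'
    refine lt_of_le_of_ne (hcmin x' hx'.1) ?_
    intro he
    exact hx'.2 (hKwS ⟨hx'.1, he.symm⟩)
  rintro ⟨σ', ⟨T', ⟨hT1, hT2⟩, hT3⟩, -, hP'⟩
  -- the sets of the later steps do not meet `K_w`
  have hlate : ∀ x ∈ Kw, ∀ T, x ∉ GG A G σ' T := by
    intro x hx T hxT
    obtain ⟨t, ht, hxt⟩ := GG_sub A G hxT
    have := hP' t ht x n (hKw2 x hx) (fun x' hx' => by rw [hx.2]; exact hR'lt x' hx')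
    have h2 : t.2.1 ≤ H A G (t.1 + 1) x := hxt
    omega
  have hcoverS : ∀ (S₁ : Finset ι) (T₁ : List (Finset ι)), (↑S₁ : Set ι) ⊆ A n →
      S₁.card = S.card → R ⊆ GG A G ((n, c, S.card) :: σ') (S₁ :: T₁) →
      S₁ = S ∧ R' ⊆ GG A G σ' T₁ := by
    intro S₁ T₁ h1 h2 h3
    have h4 : S ⊆ S₁ := by
      intro i hi
      rw [hS, Finite.mem_toFinset] at hi
      obtain ⟨x, rfl⟩ := hi
      rcases h3 x.2.1 with h5 | h5
      · simp only [mem_iUnion] at h5
        obtain ⟨j, hj, hxj, -⟩ := h5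
        rw [h_one_unique A G (hKw1 x x.2) (hqA x) (h1 hj) (hqG x) hxj]
        exact hj
      · exact absurd h5 (hlate x x.2 T₁)
    have h5 : S₁ = S := (Finset.eq_of_subset_of_card_le h4 h2.le).symm
    refine ⟨h5, ?_⟩
    intro x hx
    rcases h3 hx.1 with h6 | h6
    · simp only [mem_iUnion] at h6
      obtain ⟨j, hj, hxj, -⟩ := h6
      rw [h5] at hj
      exact absurd (mem_iUnion₂.2 ⟨j, hj, hxj⟩) hx.2
    · exact h6
  refine ⟨(n, c, S.card) :: σ', ⟨S :: T', ⟨List.Forall₂.cons ⟨hSA, rfl⟩ hT1, ?_⟩, ?_⟩, ?_, ?_⟩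
  · intro x hx
    by_cases h1 : x ∈ ⋃ i ∈ S, G i
    · left
      simp only [mem_iUnion] at h1 ⊢
      obtain ⟨i, hi, hxi⟩ := h1
      exact ⟨i, hi, hxi, hcmin x hx⟩
    · right
      exact hT2 ⟨hx, h1⟩
  · rintro T ⟨h1, h2⟩
    cases h1 with
    | cons h3 h4 =>
      obtain ⟨h5, h6⟩ := hcoverS _ _ h3.1 h3.2 h2
      rw [h5, hT3 _ ⟨h4, h6⟩]
  · intro T h1 h2 _
    cases h1 with
    | cons h3 h4 =>
      obtain ⟨h5, h6⟩ := hcoverS _ _ h3.1 h3.2 h2
      exact ⟨_, _, rfl, by rw [h5]; exact hSne, by rw [h5]; exact hSG⟩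
  · intro t ht x m hxm hlt
    rcases List.mem_cons.1 ht with h1 | h1
    · rw [h1]
      exact cmp A G hxm hn1 (hlt x₀ hx₀)
    · exact hP' t h1 x m hxm fun x' hx' => hlt x' hx'.1

/-- every compact set is good -/
theorem all_good (hG : ∀ n, ∀ i ∈ A n, IsOpen (G i)) (hex : ∀ x, ∃ n, h A G n x = 1) {K : Set X}
    (hK : IsCompact K) : Good A G K := by
  by_contra hbad
  obtain ⟨C, hC⟩ := zorn_superset {C : Set X | IsClosed C ∧ ¬ Good A G (K ∩ C)} (by
    intro c hc hchain
    rcases c.eq_empty_or_nonempty with h0 | h0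
    · refine ⟨univ, ⟨isClosed_univ, by rwa [inter_univ]⟩, ?_⟩
      rw [h0]; simp
    · refine ⟨⋂₀ c, ⟨isClosed_sInter fun C hC => (hc hC).1, ?_⟩, fun s hs => sInter_subset_of_mem hs⟩
      intro hgood
      -- some member of the chain is inside any open set containing the intersection
      have key : ∀ O : Set X, IsOpen O → K ∩ ⋂₀ c ⊆ O → ∃ C ∈ c, K ∩ C ⊆ O := by
        intro O hO hsub
        by_contra hcon
        push Not at hcon
        obtain ⟨x, hx, hx2⟩ := (hK.diff hO).inter_iInter_nonempty (fun C : c => C.1)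
          (fun C => (hc C.2).1) (by
            intro u
            -- the smallest member of `u`
            have : ∃ D ∈ c, ∀ C ∈ u, D ⊆ C.1 := by
              classical
              induction u using Finset.induction_on with
              | empty => obtain ⟨D, hD⟩ := h0; exact ⟨D, hD, by simp⟩
              | insert a s _ ih =>
                obtain ⟨D, hD, hD2⟩ := ih
                rcases hchain.total hD a.2 with h1 | h1
                · refine ⟨D, hD, fun C hC => ?_⟩
                  rcases Finset.mem_insert.1 hC with h2 | h2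
                  · rw [h2]; exact h1
                  · exact hD2 C h2
                · refine ⟨a.1, a.2, fun C hC => ?_⟩
                  rcases Finset.mem_insert.1 hC with h2 | h2
                  · rw [h2]
                  · exact h1.trans (hD2 C h2)
            obtain ⟨D, hD, hD2⟩ := this
            obtain ⟨x, hx, hxO⟩ := not_subset.1 (hcon D hD)
            refine ⟨x, ⟨hx.1, hxO⟩, ?_⟩
            simp only [mem_iInter]
            intro C hC
            exact hD2 C hC hx.2)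
        refine hx.2 (hsub ⟨hx.1, ?_⟩)
        simp only [mem_iInter] at hx2
        intro C hC
        exact hx2 ⟨C, hC⟩
      rcases (K ∩ ⋂₀ c).eq_empty_or_nonempty with h1 | h1
      · obtain ⟨C, hC, hC2⟩ := key ∅ isOpen_empty h1.subset
        refine (hc hC).2 ?_
        rw [subset_empty_iff.1 hC2]
        exact good_empty A G
      · obtain ⟨σ, ⟨T, ⟨hT1, hT2⟩, hT3⟩, hne, hP⟩ := hgood
        obtain ⟨C, hC, hC2⟩ := key _ (open_GG A G hG hT1) hT2
        have hsub : K ∩ ⋂₀ c ⊆ K ∩ C := inter_subset_inter_right _ (sInter_subset_of_mem hC)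
        refine (hc hC).2 ⟨σ, ⟨T, ⟨hT1, hC2⟩, fun T₁ h2 => hT3 T₁ ⟨h2.1, hsub.trans h2.2⟩⟩, ?_, ?_⟩
        · intro T₁ h2 h3 _
          obtain ⟨S, T', h4, h5, h6⟩ := hne T₁ h2 (hsub.trans h3) h1
          exact ⟨S, T', h4, h5, fun i hi => (h6 i hi).mono (inter_subset_inter_right _ hsub)⟩
        · intro t ht x n hx hlt
          exact hP t ht x n hx fun x' hx' => hlt x' (hsub hx'))
  have hCc := hC.prop
  rcases (K ∩ C).eq_empty_or_nonempty with h1 | h1
  · exact hCc.2 (by rw [h1]; exact good_empty A G)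
  obtain ⟨O, hO, ⟨x, hx, hxO⟩, hgood⟩ := step A G hG hex (hK.inter_right hCc.1) h1
  refine hCc.2 (hgood ?_)
  by_contra hcon
  have h2 : (C \ O) ∈ {C : Set X | IsClosed C ∧ ¬ Good A G (K ∩ C)} := by
    refine ⟨hCc.1.sdiff hO, ?_⟩
    rwa [← inter_sdiff_assoc]
  have h3 := hC.le_of_le h2 sdiff_subset hx.2
  exact h3.2 hxO

end

end Pool.Agent.U452.WT
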